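import Pool.Agent.Helper28.Koblitz.Witness
import Pool.Agent.Helper82.KZ.Infinite

set_option autoImplicit false

/-!
# Gaps in the even values of `|E(𝔽_p)|` and the refined Koblitz conjecture for even `t`

* If the discriminant of `E` is a square, or if `f'(θ)` is a square in `ℚ(θ)` for the roots `θ` of
  the 2-division cubic `f`, then `|E(𝔽_p)|` is never `2 mod 4` (for almost all `p`).
* There is a one-parameter family of elliptic curves `E_v`, `v ∈ ℚ`, with the property that
  `|E_v(𝔽_p)|` is either odd or divisible by `28` (for almost all `p`): the curves which acquire a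
  point of order `7` over their cyclic cubic 2-division field.
-/

namespace Pool.Agent.Results.MP_b89fd0_nt.EvenOrders

open Pool.Agent.Helper28.Koblitz Pool.Agent.Helper82.KZ Polynomial Filter

/-- The refined Koblitz conjecture for `(E, t)` with vanishing constant: there are only finitely
many primes `p ∤ Δ` such that `|E(𝔽_p)|/t` is a prime, `C_{E,t} = 0`, and the refined Koblitz
conjecture holds for `(E, t)`. -/
def KoblitzZero (E : WeierstrassCurve ℤ) (t : ℕ) : Prop :=
  {p : ℕ | p.Prime ∧ ¬ (((p : ℕ) : ℤ) ∣ E.Δ) ∧ t ∣ numPts E p ∧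
      Nat.Prime (numPts E p / t)}.Finite ∧ ConstantZero E t ∧ RefinedKoblitz E t

/-- The finitely many exceptional primes. -/
theorem finite_two_mod_four (E : WeierstrassCurve ℤ)
    (hE : IsSquare E.Δ ∨ ∃ g : ℚ[X], shortCubic E ∣ derivative (shortCubic E) - g ^ 2) :
    {p : ℕ | p.Prime ∧ ¬ (((p : ℕ) : ℤ) ∣ E.Δ) ∧ numPts E p % 4 = 2}.Finite := by
  rcases hE with hsq | ⟨g, hg⟩
  · refine (Set.finite_Iic 3).subset ?_
    rintro p ⟨hp, hgood, h24⟩
    by_contra hp3
    rw [Set.mem_Iic, not_le] at hp3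
    have : Fact p.Prime := ⟨hp⟩
    obtain ⟨e, -, -, hns, -⟩ := exists_unique_root E (by omega) (by omega) hgood h24
    apply hns
    obtain ⟨s, hs⟩ := hsq
    exact ⟨(s : ZMod p), by rw [hs]; push_cast; ring⟩
  · obtain ⟨n, G, hn, hG⟩ := exists_integral_witness E 1 g (by simpa using hg)
    refine ((Set.finite_Iic 3).union (finite_dvd hn)).subset ?_
    rintro p ⟨hp, hgood, h24⟩
    by_contra hcon
    rw [Set.mem_union, not_or, Set.mem_Iic, not_le] at hcon
    obtain ⟨hp3, hpn⟩ := hcon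
    have : Fact p.Prime := ⟨hp⟩
    obtain ⟨e, he, -, -, hns⟩ := exists_unique_root E (by omega) (by omega) hgood h24
    apply hns
    have hn0 : (n : ZMod p) ≠ 0 := by
      rw [Ne, ZMod.intCast_zmod_eq_zero_iff_dvd]; exact hpn
    have h := hG p e he
    refine ⟨(G.eval₂ (Int.castRingHom (ZMod p)) e) / n, ?_⟩
    rw [div_mul_div_comm, eq_div_iff (mul_ne_zero hn0 hn0)]
    rw [Int.cast_one, one_mul] at h
    linear_combination h

theorem koblitzZero_two_mod_four (E : WeierstrassCurve ℤ) (h4 : E.c₄ ≠ 0) (h6 : E.c₆ ≠ 0)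
    (hE : IsSquare E.Δ ∨ ∃ g : ℚ[X], shortCubic E ∣ derivative (shortCubic E) - g ^ 2)
    (t : ℕ) (ht : t % 4 = 2) : KoblitzZero E t := by
  apply koblitz_of_finite E h4 h6 t 4 (by norm_num)
  refine (finite_two_mod_four E hE).subset ?_
  rintro p ⟨hp, hgood, u, hu, hN⟩
  refine ⟨hp, hgood, ?_⟩
  have hunits : ∀ v : ZMod 4, IsUnit v → v = 1 ∨ v = 3 := by decide
  have hu' : u = 1 ∨ u = 3 := hunits u hu
  have ht' : (t : ZMod 4) = 2 := by
    have : ((t % 4 : ℕ) : ZMod 4) = (t : ZMod 4) := ZMod.natCast_mod t 4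
    rw [← this, ht]; rfl
  have h2 : ((numPts E p : ℕ) : ZMod 4) = ((2 : ℕ) : ZMod 4) := by
    rw [hN, ht']
    rcases hu' with rfl | rfl <;> decide
  have := (ZMod.natCast_eq_natCast_iff' (numPts E p) 2 4).mp h2
  simpa using this

/-- **The refined Koblitz conjecture for even `t` and curves with a gap in the even orders.**

(1) Let `E` be an elliptic curve over `ℚ` given by an integral Weierstrass equation, with
`j(E) ≠ 0, 1728` (i.e. `c₄ c₆ ≠ 0`). Suppose that the discriminant `Δ` of `E` is a square, or that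
there is `g ∈ ℚ[X]` with `f ∣ f' - g²`, where `f = X³ - 27 c₄ X - 54 c₆` (for irreducible
`f = f_θ` this says that `f'(θ)` is a square in `ℚ(θ)`). Then for every `t ≡ 2 mod 4` there are
only finitely many primes `p ∤ Δ` such that `|E(𝔽_p)|/t` is a prime, `C_{E,t} = 0`, and the refined
Koblitz conjecture holds for `(E, t)`.

(2) Let `E` be isomorphic over `ℚ` to a member of the explicit one-parameter family with the
invariants `fC4 v`, `fC6 v` (`v ∈ ℚ`, `v ≠ 0, -1`). Then `c₄ c₆ ≠ 0`, `Δ` is a square, and for almost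
all primes `p` the number `|E(𝔽_p)|` is odd or divisible by `28`. For **every even `t` not divisible
by `28`**, and for every curve `E'` isogenous to `E`, the three conclusions of (1) hold for
`(E', t)`.

(3) The family contains curves with arbitrarily large `j`-invariant, good reduction at `5` and `7`,
and `|E(𝔽_5)| = 5`, `|E(𝔽_7)| = 11`; in particular no curve isogenous to them has a non-trivial
rational torsion point. -/
theorem result :
    (∀ E : WeierstrassCurve ℤ, E.c₄ ≠ 0 → E.c₆ ≠ 0 →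
      (IsSquare E.Δ ∨ ∃ g : ℚ[X], shortCubic E ∣ derivative (shortCubic E) - g ^ 2) →
      ∀ t : ℕ, t % 4 = 2 → KoblitzZero E t) ∧
    (∀ (E : WeierstrassCurve ℤ) (v : ℚ), Member E v →
      E.c₄ ≠ 0 ∧ E.c₆ ≠ 0 ∧ IsSquare E.Δ ∧
      {p : ℕ | p.Prime ∧ ¬ (Odd (numPts E p) ∨ 28 ∣ numPts E p)}.Finite ∧
      ∀ E' : WeierstrassCurve ℤ, E'.c₄ ≠ 0 → E'.c₆ ≠ 0 →
        {p : ℕ | p.Prime ∧ numPts E' p ≠ numPts E p}.Finite →
        ∀ t : ℕ, Even t → ¬ 28 ∣ t → KoblitzZero E' t) ∧
    (∀ B : ℚ, ∃ (E : WeierstrassCurve ℤ) (v : ℚ), Member E v ∧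
      B < (E.c₄ : ℚ) ^ 3 / (E.Δ : ℚ) ∧ ¬ ((5 : ℤ) ∣ E.Δ) ∧ numPts E 5 = 5 ∧
      ¬ ((7 : ℤ) ∣ E.Δ) ∧ numPts E 7 = 11) := by
  refine ⟨koblitzZero_two_mod_four, ?_, exists_member⟩
  intro E v h
  have hfin : {p : ℕ | p.Prime ∧ ¬ (Odd (numPts E p) ∨ 28 ∣ numPts E p)}.Finite :=
    finite_exceptional h
  refine ⟨h.c₄_ne_zero, h.c₆_ne_zero, h.isSquare, hfin, ?_⟩
  intro E' h4 h6 hiso t ht h28
  apply koblitz_of_finite E' h4 h6 t 28 (by norm_num)
  refine (hfin.union hiso).subset ?_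
  rintro p ⟨hp, hgood, u, hu, hN⟩
  by_contra hcon
  rw [Set.mem_union, not_or] at hcon
  obtain ⟨c1, c2⟩ := hcon
  have heq : numPts E' p = numPts E p := by
    by_contra hne
    exact c2 ⟨hp, hne⟩
  have h1 : Odd (numPts E p) ∨ 28 ∣ numPts E p := by
    by_contra hne
    exact c1 ⟨hp, hne⟩
  rw [← heq] at h1
  exact h28 (dvd_of_unit_mul ht.two_dvd hN hu h1)

end Pool.Agent.Results.MP_b89fd0_nt.EvenOrders
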