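import Pool.Agent.Helper28.Koblitz.Witness
import Pool.Agent.Helper82.KZ.Infinite

set_option autoImplicit false

/-!
# Curves with `|E(𝔽_p)|` odd or divisible by `28`, and the refined Koblitz conjecture

There are infinitely many elliptic curves `E` over `ℚ`, without complex multiplication and with
infinitely many different `j`-invariants, such that `|E(𝔽_p)|` is odd or divisible by `28` for
almost all primes `p`, although no curve isogenous to `E` has a nontrivial rational torsion point.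
For these `E`, all curves isogenous to `E` and all even `t` not divisible by `28` the refined
Koblitz conjecture holds, with `C_{E,t} = 0`.
-/

namespace Pool.Agent.Helper82.KZ2

open Pool.Agent.Helper28.Koblitz Pool.Agent.Helper82.KZ Filter

/-- The refined Koblitz conjecture for `(E, t)` with vanishing constant: there are only finitely
many primes `p ∤ Δ` such that `|E(𝔽_p)|/t` is a prime, `C_{E,t} = 0`, and the refined Koblitz
conjecture holds for `(E, t)`. -/
def KoblitzZero (E : WeierstrassCurve ℤ) (t : ℕ) : Prop :=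
  {p : ℕ | p.Prime ∧ ¬ (((p : ℕ) : ℤ) ∣ E.Δ) ∧ t ∣ numPts E p ∧
      Nat.Prime (numPts E p / t)}.Finite ∧ ConstantZero E t ∧ RefinedKoblitz E t

/-- For every bound `B` there is an elliptic curve `E` over `ℚ` with `c₄ c₆ ≠ 0` and `j(E) > B`
(so `E` has no complex multiplication if `B ≥ 16581375`) such that `|E(𝔽_p)|` is odd or divisible
by `28` for almost all primes `p`, while `E` has good reduction at `5` and `7` and `|E(𝔽_5)| = 5`,
`|E(𝔽_7)| = 11` (so no curve isogenous to `E` has a nontrivial rational torsion point); and for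
every curve `E'` isogenous to `E` and every even `t` not divisible by `28` the refined Koblitz
conjecture holds for `(E', t)` and `C_{E',t} = 0`. -/
theorem result (B : ℚ) :
    ∃ E : WeierstrassCurve ℤ, E.c₄ ≠ 0 ∧ E.c₆ ≠ 0 ∧ B < (E.c₄ : ℚ) ^ 3 / (E.Δ : ℚ) ∧
      {p : ℕ | p.Prime ∧ ¬ (Odd (numPts E p) ∨ 28 ∣ numPts E p)}.Finite ∧
      (¬ ((5 : ℤ) ∣ E.Δ) ∧ numPts E 5 = 5 ∧ ¬ ((7 : ℤ) ∣ E.Δ) ∧ numPts E 7 = 11) ∧
      ∀ E' : WeierstrassCurve ℤ, E'.c₄ ≠ 0 → E'.c₆ ≠ 0 →
        {p : ℕ | p.Prime ∧ numPts E' p ≠ numPts E p}.Finite →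
        ∀ t : ℕ, Even t → ¬ 28 ∣ t → KoblitzZero E' t := by
  obtain ⟨E, v, h, hj, h5, h5', h7, h7'⟩ := exists_member B
  have hfin : {p : ℕ | p.Prime ∧ ¬ (Odd (numPts E p) ∨ 28 ∣ numPts E p)}.Finite :=
    finite_exceptional h
  refine ⟨E, h.c₄_ne_zero, h.c₆_ne_zero, hj, hfin, ⟨h5, h5', h7, h7'⟩, ?_⟩
  intro E' h4 h6 hiso t ht h28
  apply koblitz_of_finite E' h4 h6 t 28 (by norm_num)
  refine (hfin.union hiso).subset ?_
  rintro p ⟨hp, hgood, u, hu, hN⟩
  by_contra hcon
  rw [Set.mem_union, not_or] at hcon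
  obtain ⟨c1, c2⟩ := hcon
  have heq : numPts E' p = numPts E p := by
    by_contra hne
    exact c2 ⟨hp, hne⟩
  have h1 : Odd (numPts E p) ∨ 28 ∣ numPts E p := by
    by_contra hne
    exact c1 ⟨hp, hne⟩
  rw [← heq] at h1
  exact h28 (dvd_of_unit_mul ht.two_dvd hN hu h1)

end Pool.Agent.Helper82.KZ2
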